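import Mathlib

set_option autoImplicit false

namespace Pool.Agent.H2.Riele

/-- the map in natural number arithmetic -/
def g (n : ℕ) : ℕ := if n % 3 = 0 then n / 3 else Nat.sqrt (3 * n ^ 2)

/-- the positive integers whose orbit does not tend to infinity -/
def S : Set ℕ := {n | 1 ≤ n ∧ ¬ Filter.Tendsto (fun k : ℕ => g^[k] n) Filter.atTop Filter.atTop}

/-- counting function -/
noncomputable def c (x : ℕ) : ℕ := (S ∩ Set.Icc 1 x).ncard

end Pool.Agent.H2.Riele
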