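import Pool.Agent.H2.Riele.Defs
set_option autoImplicit false
namespace Pool.Agent.H2.Riele

theorem T1 (n : ℕ) : ⌊(n : ℝ) * Real.sqrt 3⌋₊ = Nat.sqrt (3 * n ^ 2) := by
  have h : (n : ℝ) * Real.sqrt 3 = Real.sqrt ((3 * n ^ 2 : ℕ) : ℝ) := by
    push_cast
    rw [Real.sqrt_mul (by norm_num), Real.sqrt_sq (by positivity), mul_comm]
  rw [h, Real.nat_floor_real_sqrt_eq_nat_sqrt]

theorem T4 (c : ℕ → ℕ) (h0 : ∀ x, c x ≤ x) (h1 : ∀ x, c x ≤ 1 + c (x / 3) + c (3 * x / 5)) :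
    Filter.Tendsto (fun x : ℕ => (c x : ℝ) / x) Filter.atTop (nhds 0) := by
  have key : ∀ k : ℕ, ∃ K : ℝ, 0 ≤ K ∧ ∀ x, (c x : ℝ) ≤ (14 / 15) ^ k * x + K := by
    intro k
    induction k with
    | zero =>
      refine ⟨0, le_rfl, fun x => ?_⟩
      rw [pow_zero, one_mul, add_zero]
      exact_mod_cast h0 x
    | succ k ih =>
      obtain ⟨K, hK0, hK⟩ := ih
      refine ⟨2 * K + 1, by linarith, fun x => ?_⟩
      have e1 : ((c x : ℕ) : ℝ) ≤ 1 + c (x / 3) + c (3 * x / 5) := by exact_mod_cast h1 x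
      have e2 := hK (x / 3)
      have e3 := hK (3 * x / 5)
      have e4 : ((x / 3 : ℕ) : ℝ) ≤ x / 3 := by
        have := @Nat.cast_div_le ℝ _ _ _ x 3
        simpa using this
      have e5 : ((3 * x / 5 : ℕ) : ℝ) ≤ 3 * x / 5 := by
        have := @Nat.cast_div_le ℝ _ _ _ (3 * x) 5
        simpa using this
      have p : (0 : ℝ) ≤ (14 / 15) ^ k := by positivity
      have e6 := mul_le_mul_of_nonneg_left e4 p
      have e7 := mul_le_mul_of_nonneg_left e5 p
      have e8 : ((14 : ℝ) / 15) ^ (k + 1) * x = (14 / 15) ^ k * (x / 3) + (14 / 15) ^ k * (3 * x / 5) := by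
        ring
      linarith
  rw [Metric.tendsto_atTop]
  intro ε hε
  obtain ⟨k, hk⟩ := exists_pow_lt_of_lt_one (show (0 : ℝ) < ε / 2 by linarith)
    (show (14 : ℝ) / 15 < 1 by norm_num)
  obtain ⟨K, hK0, hK⟩ := key k
  obtain ⟨N, hN⟩ := exists_nat_gt (2 * K / ε)
  refine ⟨N + 1, fun x hx => ?_⟩
  have hx0 : (0 : ℝ) < x := by
    have : 0 < x := by omega
    exact_mod_cast this
  have hxN : (N : ℝ) ≤ x := by
    have : N ≤ x := by omega
    exact_mod_cast this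
  rw [Real.dist_eq, sub_zero, abs_of_nonneg (by positivity), div_lt_iff₀ hx0]
  have h3 : 2 * K < ε * x := by
    have := lt_of_lt_of_le hN hxN
    rw [div_lt_iff₀ hε] at this
    linarith
  have h4 := hK x
  have h5 : (14 / 15 : ℝ) ^ k * x < ε / 2 * x := mul_lt_mul_of_pos_right hk hx0
  linarith

end Pool.Agent.H2.Riele
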