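import Pool.Agent.H2.Riele.Defs
set_option autoImplicit false
namespace Pool.Agent.H2.Riele

lemma g_step (n : ℕ) (h2 : 2 ≤ n) (h3 : n % 3 ≠ 0) (h4 : g n % 3 ≠ 0) :
    2 ≤ g n ∧ g n % 3 ≠ 0 ∧ g (g n) % 3 ≠ 0 ∧ n < g n := by
  obtain ⟨m, hm⟩ : ∃ m, m = g n := ⟨_, rfl⟩
  have hgn : g n = Nat.sqrt (3 * n ^ 2) := by
    unfold g
    rw [if_neg h3]
  rw [← hm] at h4 ⊢
  have hm' : m = Nat.sqrt (3 * n ^ 2) := hm.trans hgn
  have m1 : m ^ 2 ≤ 3 * n ^ 2 := by rw [hm']; exact Nat.sqrt_le' _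
  have m2 : 3 * n ^ 2 < (m + 1) ^ 2 := by rw [hm']; exact Nat.lt_succ_sqrt' _
  have m3 : n + 1 ≤ m := by
    rw [hm', Nat.le_sqrt']
    nlinarith
  have hgm : g m = Nat.sqrt (3 * m ^ 2) := by
    unfold g
    rw [if_neg h4]
  have m4 : m ^ 2 ≠ 3 * n ^ 2 := by
    intro h
    have h5 : 3 ∣ m ^ 2 := ⟨n ^ 2, h⟩
    have h6 : 3 ∣ m := Nat.Prime.dvd_of_dvd_pow (by norm_num) h5
    omega
  have m5 : 3 * m ^ 2 < (3 * n) ^ 2 := by
    have : m ^ 2 < 3 * n ^ 2 := lt_of_le_of_ne m1 m4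
    nlinarith
  have q1 : g m < 3 * n := by
    rw [hgm, Nat.sqrt_lt']
    exact m5
  have m6 : 3 * m + 2 ≤ 6 * n := by
    by_contra h
    push Not at h
    have h5 : 6 * n ≤ 3 * m + 1 := by omega
    nlinarith
  obtain ⟨t, ht⟩ : ∃ t, t + 2 = 3 * n := ⟨3 * n - 2, by omega⟩
  have q2 : t ≤ g m := by
    rw [hgm, Nat.le_sqrt']
    have e : (t + 2) ^ 2 = 9 * n ^ 2 := by rw [ht]; ring
    nlinarith
  refine ⟨by omega, h4, ?_, by omega⟩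
  omega

theorem T2 (n : ℕ) (h2 : 2 ≤ n) (h3 : n % 3 ≠ 0) (h4 : g n % 3 ≠ 0) :
    Filter.Tendsto (fun k : ℕ => g^[k] n) Filter.atTop Filter.atTop := by
  have inv : ∀ k : ℕ, 2 ≤ g^[k] n ∧ g^[k] n % 3 ≠ 0 ∧ g (g^[k] n) % 3 ≠ 0 := by
    intro k
    induction k with
    | zero => exact ⟨h2, h3, h4⟩
    | succ k ih =>
      rw [Function.iterate_succ_apply']
      obtain ⟨a, b, c', _⟩ := g_step _ ih.1 ih.2.1 ih.2.2
      exact ⟨a, b, c'⟩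
  have hs : StrictMono (fun k : ℕ => g^[k] n) := by
    refine strictMono_nat_of_lt_succ fun k => ?_
    show g^[k] n < g^[k + 1] n
    rw [Function.iterate_succ_apply']
    exact (g_step _ (inv k).1 (inv k).2.1 (inv k).2.2).2.2.2
  exact hs.tendsto_atTop

end Pool.Agent.H2.Riele
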