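import Mathlib
import Pool.Agent.H2.Riele.Defs

set_option autoImplicit false

namespace Pool.Agent.H2.Riele

theorem S_tail (n j : ℕ) (hn : n ∈ S) (hj : 1 ≤ g^[j] n) : g^[j] n ∈ S := by
  refine ⟨hj, fun h => hn.2 ?_⟩
  rw [← Filter.tendsto_add_atTop_iff_nat j]
  refine h.congr (fun k => ?_)
  rw [Function.iterate_add_apply]

theorem T3 (T2 : ∀ n : ℕ, 2 ≤ n → n % 3 ≠ 0 → g n % 3 ≠ 0 →
      Filter.Tendsto (fun k : ℕ => g^[k] n) Filter.atTop Filter.atTop) (x : ℕ) :
    c x ≤ 1 + c (x / 3) + c (3 * x / 5) := by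
  classical
  let A1 : Set ℕ := {n | n ∈ S ∧ n ≤ x ∧ n % 3 = 0}
  let A2 : Set ℕ := {n | n ∈ S ∧ n ≤ x ∧ 2 ≤ n ∧ n % 3 ≠ 0}
  have hsub : S ∩ Set.Icc 1 x ⊆ ({1} ∪ A1) ∪ A2 := by
    rintro n ⟨hn, h1, h2⟩
    by_cases h3 : n % 3 = 0
    · exact Or.inl (Or.inr ⟨hn, h2, h3⟩)
    · rcases Nat.lt_or_ge n 2 with h4 | h4
      · left; left
        have : n = 1 := by omega
        rw [this]; rfl
      · exact Or.inr ⟨hn, h2, h4, h3⟩
  have hfin1 : A1.Finite := (Set.finite_Iic x).subset (fun n hn => hn.2.1)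
  have hfin2 : A2.Finite := (Set.finite_Iic x).subset (fun n hn => hn.2.1)
  have hfinS : ∀ z, (S ∩ Set.Icc 1 z).Finite := fun z =>
    (Set.finite_Icc 1 z).subset Set.inter_subset_right
  have h1 : A1.ncard ≤ c (x / 3) := by
    refine Set.ncard_le_ncard_of_injOn (fun n => n / 3) ?_ ?_ (hfinS _)
    · rintro n ⟨hn, hnx, hn3⟩
      have hn1 : 1 ≤ n := hn.1
      have hg : g^[1] n = n / 3 := by simp [g, hn3]
      have h5 := S_tail n 1 hn (by rw [hg]; omega)
      rw [hg] at h5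
      exact ⟨h5, by omega, by omega⟩
    · rintro n ⟨hn, hnx, hn3⟩ n' ⟨hn', hnx', hn3'⟩ heq
      simp only at heq
      omega
  have hkey : ∀ n ∈ A2, g n % 3 = 0 ∧ g n = Nat.sqrt (3 * n ^ 2) := by
    rintro n ⟨hn, hnx, hn2, hn3⟩
    constructor
    · by_contra h
      exact hn.2 (T2 n hn2 hn3 h)
    · simp [g, hn3]
  have h2 : A2.ncard ≤ c (3 * x / 5) := by
    refine Set.ncard_le_ncard_of_injOn (fun n => g n / 3) ?_ ?_ (hfinS _)
    · intro n hn
      obtain ⟨k1, k2⟩ := hkey n hn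
      obtain ⟨hnS, hnx, hn2, hn3⟩ := hn
      have hg2 : g^[2] n = g n / 3 := by
        rw [Function.iterate_succ_apply, Function.iterate_one, g, if_pos k1]
      have hsq : g n * g n ≤ 3 * n ^ 2 := by rw [k2]; exact Nat.sqrt_le _
      have h3 : 3 ≤ g n := by
        rw [k2, Nat.le_sqrt]; nlinarith
      obtain ⟨m, hm⟩ : ∃ m, g n = 3 * m := ⟨g n / 3, by omega⟩
      have hdiv : g n / 3 = m := by omega
      have hm1 : 1 ≤ m := by omega
      have hm2 : 5 * m ≤ 3 * n := by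
        rw [hm] at hsq
        by_contra hlt
        push Not at hlt
        nlinarith
      have h5 := S_tail n 2 hnS (by rw [hg2, hdiv]; exact hm1)
      rw [hg2] at h5
      refine ⟨h5, ?_, ?_⟩
      · omega
      · omega
    · intro n hn n' hn' heq
      obtain ⟨k1, k2⟩ := hkey n hn
      obtain ⟨k1', k2'⟩ := hkey n' hn'
      simp only at heq
      have hgg : g n = g n' := by omega
      obtain ⟨m, hm⟩ : ∃ m, g n = 3 * m := ⟨g n / 3, by omega⟩
      have a1 : g n * g n ≤ 3 * n ^ 2 := by rw [k2]; exact Nat.sqrt_le _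
      have a2 : 3 * n ^ 2 < (g n + 1) * (g n + 1) := by rw [k2]; exact Nat.lt_succ_sqrt _
      have a1' : g n' * g n' ≤ 3 * n' ^ 2 := by rw [k2']; exact Nat.sqrt_le _
      have a2' : 3 * n' ^ 2 < (g n' + 1) * (g n' + 1) := by
        rw [k2']; exact Nat.lt_succ_sqrt _
      rw [← hgg] at a1' a2'
      rw [hm] at a1 a2 a1' a2'
      have hmn : m ≤ n := by
        by_contra h
        push Not at h
        nlinarith
      have hmn' : m ≤ n' := by
        by_contra h
        push Not at h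
        nlinarith
      rcases Nat.lt_trichotomy n n' with h | h | h
      · exfalso; nlinarith
      · exact h
      · exfalso; nlinarith
  calc c x ≤ (({1} ∪ A1) ∪ A2).ncard :=
        Set.ncard_le_ncard hsub (((Set.finite_singleton 1).union hfin1).union hfin2)
    _ ≤ ({1} ∪ A1).ncard + A2.ncard := Set.ncard_union_le _ _
    _ ≤ (({1} : Set ℕ).ncard + A1.ncard) + A2.ncard :=
        Nat.add_le_add_right (Set.ncard_union_le _ _) _
    _ ≤ 1 + c (x / 3) + c (3 * x / 5) := by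
        rw [Set.ncard_singleton]; omega

end Pool.Agent.H2.Riele
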