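import Pool.Agent.H2.Riele.Defs
import Pool.Agent.H2.Riele.T14
import Pool.Agent.H2.Riele.T2
import Pool.Agent.H2.Riele.T3

set_option autoImplicit false

namespace Pool.Agent.H2.Riele

open Filter

lemma c_le (x : ℕ) : c x ≤ x := by
  unfold c
  have h := Set.ncard_le_ncard (Set.inter_subset_right : S ∩ Set.Icc 1 x ⊆ Set.Icc 1 x)
    (Set.finite_Icc 1 x)
  have h2 : (Set.Icc 1 x).ncard = x := by
    rw [← Finset.coe_Icc, Set.ncard_coe_finset, Nat.card_Icc]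
    omega
  omega

lemma ncard_add (N : ℕ) :
    ({n : ℕ | 1 ≤ n ∧ n ≤ N ∧ Tendsto (fun k : ℕ => g^[k] n) atTop atTop}.ncard) + c N = N := by
  unfold c
  have hfin : (Set.Icc 1 N).Finite := Set.finite_Icc 1 N
  have hd : Disjoint {n : ℕ | 1 ≤ n ∧ n ≤ N ∧ Tendsto (fun k : ℕ => g^[k] n) atTop atTop}
      (S ∩ Set.Icc 1 N) := by
    rw [Set.disjoint_left]
    rintro n ⟨_, _, h⟩ ⟨⟨_, h2⟩, _⟩
    exact h2 h
  have h1 : {n : ℕ | 1 ≤ n ∧ n ≤ N ∧ Tendsto (fun k : ℕ => g^[k] n) atTop atTop}.Finite :=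
    hfin.subset (by rintro n ⟨a, b, _⟩; exact ⟨a, b⟩)
  have h2 : (S ∩ Set.Icc 1 N).Finite := hfin.subset Set.inter_subset_right
  rw [← Set.ncard_union_eq hd h1 h2]
  have h3 : {n : ℕ | 1 ≤ n ∧ n ≤ N ∧ Tendsto (fun k : ℕ => g^[k] n) atTop atTop} ∪
      (S ∩ Set.Icc 1 N) = Set.Icc 1 N := by
    ext n
    constructor
    · rintro (⟨a, b, _⟩ | ⟨_, h⟩)
      · exact ⟨a, b⟩
      · exact h
    · intro h
      by_cases ht : Tendsto (fun k : ℕ => g^[k] n) atTop atTop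
      · exact Or.inl ⟨h.1, h.2, ht⟩
      · exact Or.inr ⟨⟨h.1, ht⟩, h⟩
  rw [h3, ← Finset.coe_Icc, Set.ncard_coe_finset, Nat.card_Icc]
  omega

theorem final (f : ℕ → ℕ)
    (hf : ∀ n : ℕ, f n = if n % 3 = 0 then n / 3 else ⌊(n : ℝ) * Real.sqrt 3⌋₊) :
      Tendsto
        (fun N : ℕ =>
          (({n : ℕ | 1 ≤ n ∧ n ≤ N ∧
              Tendsto (fun k : ℕ => f^[k] n) atTop atTop}.ncard : ℕ) : ℝ) / (N : ℝ))
        atTop (nhds 1) := by
  have hfg : f = g := by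
    funext n
    rw [hf n, g, T1]
  subst hfg
  have h0 := T4 c c_le (fun x => T3 T2 x)
  have h1 : Tendsto (fun x : ℕ => 1 - (c x : ℝ) / x) atTop (nhds (1 - 0)) := h0.const_sub 1
  rw [sub_zero] at h1
  refine h1.congr' ?_
  filter_upwards [eventually_ge_atTop 1] with N hN
  have hN0 : (N : ℝ) ≠ 0 := by
    have : (0 : ℝ) < N := by exact_mod_cast hN
    exact this.ne'
  have h2 := ncard_add N
  have h3 : (({n : ℕ | 1 ≤ n ∧ n ≤ N ∧
      Tendsto (fun k : ℕ => g^[k] n) atTop atTop}.ncard : ℕ) : ℝ) = (N : ℝ) - c N := by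
    have : (({n : ℕ | 1 ≤ n ∧ n ≤ N ∧
      Tendsto (fun k : ℕ => g^[k] n) atTop atTop}.ncard : ℕ) : ℝ) + c N = N := by
      exact_mod_cast h2
    linarith
  rw [h3, sub_div, div_self hN0]

end Pool.Agent.H2.Riele
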