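import Mathlib

set_option autoImplicit false

namespace Pool.Agent.H2.Riele

theorem T1 (n : ℕ) : ⌊(n : ℝ) * Real.sqrt 3⌋₊ = Nat.sqrt (3 * n ^ 2) := by
  have h : (n : ℝ) * Real.sqrt 3 = Real.sqrt ((3 * n ^ 2 : ℕ) : ℝ) := by
    push_cast
    rw [Real.sqrt_mul (by norm_num), Real.sqrt_sq (Nat.cast_nonneg n), mul_comm]
  rw [h, Real.nat_floor_real_sqrt_eq_nat_sqrt]

end Pool.Agent.H2.Riele
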