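import Mathlib

set_option autoImplicit false

namespace Pool.Agent.H2.Riele

theorem T4_bound (c : ℕ → ℕ) (h0 : ∀ x, c x ≤ x)
    (h1 : ∀ x, c x ≤ 1 + c (x / 3) + c (3 * x / 5)) (k : ℕ) :
    ∃ K : ℝ, 0 ≤ K ∧ ∀ x : ℕ, (c x : ℝ) ≤ (14 / 15 : ℝ) ^ k * x + K := by
  induction k with
  | zero =>
    refine ⟨0, le_refl _, fun x => ?_⟩
    have : (c x : ℝ) ≤ x := by exact_mod_cast h0 x
    simpa using this
  | succ k ih =>
    obtain ⟨K, hK0, hK⟩ := ih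
    refine ⟨1 + 2 * K, by positivity, fun x => ?_⟩
    have e1 : (c x : ℝ) ≤ 1 + c (x / 3) + c (3 * x / 5) := by exact_mod_cast h1 x
    have e2 := hK (x / 3)
    have e3 := hK (3 * x / 5)
    have p : (0 : ℝ) ≤ (14 / 15 : ℝ) ^ k := by positivity
    have d1 : ((x / 3 : ℕ) : ℝ) ≤ (x : ℝ) / 3 := by
      have := @Nat.cast_div_le ℝ _ _ _ x 3
      simpa using this
    have d2 : ((3 * x / 5 : ℕ) : ℝ) ≤ 3 * (x : ℝ) / 5 := by
      have := @Nat.cast_div_le ℝ _ _ _ (3 * x) 5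
      simpa using this
    have f1 := mul_le_mul_of_nonneg_left d1 p
    have f2 := mul_le_mul_of_nonneg_left d2 p
    have : (14 / 15 : ℝ) ^ (k + 1) * x = (14 / 15 : ℝ) ^ k * ((x : ℝ) / 3) + (14 / 15 : ℝ) ^ k * (3 * (x : ℝ) / 5) := by
      rw [pow_succ]; ring
    rw [this]
    linarith

theorem T4 (c : ℕ → ℕ) (h0 : ∀ x, c x ≤ x) (h1 : ∀ x, c x ≤ 1 + c (x / 3) + c (3 * x / 5)) :
    Filter.Tendsto (fun x : ℕ => (c x : ℝ) / x) Filter.atTop (nhds 0) := by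
  rw [Metric.tendsto_atTop]
  intro ε hε
  obtain ⟨k, hk⟩ := exists_pow_lt_of_lt_one (half_pos hε) (show (14 / 15 : ℝ) < 1 by norm_num)
  obtain ⟨K, hK0, hK⟩ := T4_bound c h0 h1 k
  obtain ⟨N, hN⟩ := exists_nat_gt (2 * K / ε)
  refine ⟨N + 1, fun x hx => ?_⟩
  have hx1 : (N : ℝ) + 1 ≤ x := by exact_mod_cast hx
  have hN0 : (0 : ℝ) ≤ N := Nat.cast_nonneg N
  have hx0 : (0 : ℝ) < x := by linarith
  have h2 : 2 * K < ε * x := by
    have : 2 * K / ε < x := by linarith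
    rw [div_lt_iff₀ hε] at this
    linarith
  rw [Real.dist_eq, sub_zero, abs_of_nonneg (by positivity), div_lt_iff₀ hx0]
  have h3 := hK x
  have h4 : (14 / 15 : ℝ) ^ k * x ≤ ε / 2 * x := mul_le_mul_of_nonneg_right hk.le hx0.le
  nlinarith

end Pool.Agent.H2.Riele
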