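import Mathlib
set_option autoImplicit false
namespace Pool.Agent.H2.Riele.H7

theorem T4 (c : ℕ → ℕ) (h0 : ∀ x, c x ≤ x) (h1 : ∀ x, c x ≤ 1 + c (x / 3) + c (3 * x / 5)) :
    Filter.Tendsto (fun x : ℕ => (c x : ℝ) / x) Filter.atTop (nhds 0) := by
  have key : ∀ k : ℕ, ∃ K : ℝ, 0 ≤ K ∧ ∀ x : ℕ, (c x : ℝ) ≤ (14/15)^k * x + K := by
    intro k
    induction k with
    | zero => exact ⟨0, le_refl _, fun x => by simpa using h0 x⟩
    | succ k ih =>
      obtain ⟨K, hK, hx⟩ := ih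
      refine ⟨2 * K + 1, by linarith, fun x => ?_⟩
      have e1 : (c x : ℝ) ≤ 1 + c (x / 3) + c (3 * x / 5) := by exact_mod_cast h1 x
      have e2 := hx (x / 3)
      have e3 := hx (3 * x / 5)
      have e4 : ((x / 3 : ℕ) : ℝ) ≤ (x : ℝ) / 3 := by
        have := @Nat.cast_div_le ℝ _ _ _ x 3
        simpa using this
      have e5 : ((3 * x / 5 : ℕ) : ℝ) ≤ 3 * (x : ℝ) / 5 := by
        have := @Nat.cast_div_le ℝ _ _ _ (3 * x) 5
        push_cast at this
        simpa using this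
      have hp : (0:ℝ) ≤ (14/15)^k := by positivity
      have e6 := mul_le_mul_of_nonneg_left e4 hp
      have e7 := mul_le_mul_of_nonneg_left e5 hp
      rw [pow_succ]
      nlinarith
  rw [Metric.tendsto_atTop]
  intro ε hε
  obtain ⟨k, hk⟩ := exists_pow_lt_of_lt_one (half_pos hε) (show (14/15 : ℝ) < 1 by norm_num)
  obtain ⟨K, hK, hx⟩ := key k
  obtain ⟨N, hN⟩ := exists_nat_gt (2 * K / ε)
  refine ⟨N + 1, fun n hn => ?_⟩
  have hn0 : (0:ℝ) < n := by
    have : 1 ≤ n := by omega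
    exact_mod_cast this
  rw [Real.dist_eq, sub_zero, abs_of_nonneg (by positivity), div_lt_iff₀ hn0]
  have h3 : (N:ℝ) + 1 ≤ n := by exact_mod_cast hn
  have h4 : 2 * K < ε * n := by
    rw [div_lt_iff₀ hε] at hN
    nlinarith
  have h5 := hx n
  nlinarith
end Pool.Agent.H2.Riele.H7
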